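import Pool.Agent.StripNear.Basic

/-! # The typed potential of a strip

`g r = √(1 - r²)`; `v (k h0 + s) = g s - 1 - k / 2` for `0 ≤ s < h0`.  A step to the right and up by
`r ≤ h0` between two points at distance at least one has length at least `1 + v (y + r) - v y`. -/

namespace Pool.Agent.StripSquare

open Pool.Agent.StripNear

/-- The unit circle. -/
noncomputable def g (r : ℝ) : ℝ := Real.sqrt (1 - r ^ 2)

theorem g_nonneg (r : ℝ) : 0 ≤ g r := Real.sqrt_nonneg _

theorem g_sq {r : ℝ} (h : r ^ 2 ≤ 1) : g r ^ 2 = 1 - r ^ 2 := by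
  unfold g
  rw [Real.sq_sqrt (by linarith)]

theorem g_zero : g 0 = 1 := by
  unfold g
  norm_num

theorem g_le_one (r : ℝ) : g r ≤ 1 := by
  unfold g
  rw [Real.sqrt_le_left (by norm_num)]
  nlinarith [sq_nonneg r]

theorem g_h0 : g h0 = 1 / 2 := by
  unfold g
  rw [h0_sq, show (1 - 3 / 4 : ℝ) = (1 / 2) ^ 2 by norm_num, Real.sqrt_sq (by norm_num)]

theorem g_concave : ConcaveOn ℝ (Set.Icc (-1) 1) g := by
  refine ⟨convex_Icc _ _, ?_⟩
  intro x hx y hy a b ha hb hab
  simp only [smul_eq_mul]
  have hx2 : x ^ 2 ≤ 1 := by nlinarith [hx.1, hx.2]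
  have hy2 : y ^ 2 ≤ 1 := by nlinarith [hy.1, hy.2]
  have h1 := g_sq hx2
  have h2 := g_sq hy2
  have h3 : g x * g y ≤ 1 - x * y := by
    nlinarith [sq_nonneg (g x - g y), sq_nonneg (x - y)]
  have hb' : b = 1 - a := by linarith
  apply Real.le_sqrt_of_sq_le
  have hab0 : 0 ≤ a * b := mul_nonneg ha hb
  calc (a * g x + b * g y) ^ 2 = a ^ 2 * g x ^ 2 + b ^ 2 * g y ^ 2 + 2 * (a * b) * (g x * g y) := by
        ring
    _ ≤ a ^ 2 * g x ^ 2 + b ^ 2 * g y ^ 2 + 2 * (a * b) * (1 - x * y) := by
        have := mul_le_mul_of_nonneg_left h3 (mul_nonneg zero_le_two hab0)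
        linarith
    _ = 1 - (a * x + b * y) ^ 2 := by
        rw [h1, h2, hb']
        ring

/-- Four point inequality for a concave function. -/
theorem four {x y z w : ℝ} (hx : -1 ≤ x) (hw : w ≤ 1) (hxy : x ≤ y) (hyw : y ≤ w)
    (hs : x + w = y + z) : g x + g w ≤ g y + g z := by
  rcases eq_or_lt_of_le (hxy.trans hyw) with h | h
  · have e1 : y = x := by linarith
    have e2 : z = w := by linarith
    rw [e1, e2]
  · set t : ℝ := (w - y) / (w - x) with ht
    have h0 : 0 < w - x := by linarith
    have ht0 : 0 ≤ t := div_nonneg (by linarith) h0.le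
    have ht1 : t ≤ 1 := by
      rw [ht, div_le_one h0]
      linarith
    have hmx : x ∈ Set.Icc (-1 : ℝ) 1 := ⟨hx, by linarith⟩
    have hmw : w ∈ Set.Icc (-1 : ℝ) 1 := ⟨by linarith, hw⟩
    have htw : t * (w - x) = w - y := by
      rw [ht]
      field_simp
    have c1 := g_concave.2 hmx hmw ht0 (by linarith : (0 : ℝ) ≤ 1 - t) (by ring)
    have c2 := g_concave.2 hmw hmx ht0 (by linarith : (0 : ℝ) ≤ 1 - t) (by ring)
    simp only [smul_eq_mul] at c1 c2
    have e1 : t * x + (1 - t) * w = y := by linarith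
    have e2 : t * w + (1 - t) * x = z := by linarith
    rw [e1] at c1
    rw [e2] at c2
    linarith

/-- The number of whole rows below `y`. -/
noncomputable def row (y : ℝ) : ℤ := ⌊y / h0⌋

/-- The phase of `y`. -/
noncomputable def phase (y : ℝ) : ℝ := y - row y * h0

theorem phase_nonneg (y : ℝ) : 0 ≤ phase y := by
  have h := Int.floor_le (y / h0)
  rw [le_div_iff₀ h0_pos] at h
  unfold phase row
  linarith

theorem phase_lt (y : ℝ) : phase y < h0 := by
  have h := Int.lt_floor_add_one (y / h0)
  rw [div_lt_iff₀ h0_pos] at h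
  unfold phase row
  linarith

theorem row_eq {y s : ℝ} {k : ℤ} (h : y = k * h0 + s) (h1 : 0 ≤ s) (h2 : s < h0) : row y = k := by
  unfold row
  rw [Int.floor_eq_iff, le_div_iff₀ h0_pos, div_lt_iff₀ h0_pos]
  constructor <;> linarith

/-- The potential. -/
noncomputable def v (y : ℝ) : ℝ := g (phase y) - 1 - row y / 2

theorem v_eq {y s : ℝ} {k : ℤ} (h : y = k * h0 + s) (h1 : 0 ≤ s) (h2 : s < h0) :
    v y = g s - 1 - k / 2 := by
  have hk := row_eq h h1 h2
  unfold v phase
  rw [hk, h]
  congr 3
  ring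

theorem v_zero : v 0 = 0 := by
  rw [v_eq (k := 0) (s := 0) (by simp) le_rfl h0_pos, g_zero]
  simp

theorem v_add_int (y : ℝ) (m : ℤ) : v (y + m * h0) = v y - m / 2 := by
  have h1 : y + m * h0 = ((row y + m : ℤ) : ℝ) * h0 + phase y := by
    unfold phase
    push_cast
    ring
  rw [v_eq h1 (phase_nonneg y) (phase_lt y)]
  unfold v
  push_cast
  ring

theorem h0_le_one : h0 ≤ 1 := by linarith [h0_lt]

/-- Subadditivity. -/
theorem v_add {y r : ℝ} (h1 : 0 ≤ r) (h2 : r ≤ h0) : v (y + r) ≤ v y + g r - 1 := by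
  have hp := phase_nonneg y
  have hp' := phase_lt y
  have hh := h0_lt
  have hh' := h0_gt
  rcases lt_or_ge (phase y + r) h0 with h | h
  · have e : y + r = (row y : ℝ) * h0 + (phase y + r) := by
      unfold phase
      ring
    rw [v_eq e (by linarith) h]
    have hf := four (x := 0) (y := phase y) (z := r) (w := phase y + r) (by norm_num)
      (by linarith) hp (by linarith) (by ring)
    rw [g_zero] at hf
    unfold v
    linarith
  · have e : y + r = ((row y + 1 : ℤ) : ℝ) * h0 + (phase y + r - h0) := by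
      unfold phase
      push_cast
      ring
    rw [v_eq e (by linarith) (by linarith)]
    have hf := four (x := phase y + r - h0) (y := phase y) (z := r) (w := h0) (by linarith)
      (by linarith) (by linarith) hp'.le (by ring)
    rw [g_h0] at hf
    unfold v
    push_cast
    linarith

theorem v_anti {y z : ℝ} (h : y ≤ z) : v z ≤ v y := by
  set m : ℤ := row (z - y) with hm
  have hm0 : 0 ≤ m := by
    rw [hm]
    unfold row
    exact Int.floor_nonneg.2 (div_nonneg (by linarith) h0_pos.le)
  have e : z = (y + phase (z - y)) + m * h0 := by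
    rw [hm]
    unfold phase
    ring
  have h1 := v_add (y := y) (phase_nonneg (z - y)) (phase_lt (z - y)).le
  have h2 := g_le_one (phase (z - y))
  have h3 := v_add_int (y + phase (z - y)) m
  rw [← e] at h3
  have h4 : (0 : ℝ) ≤ m := by exact_mod_cast hm0
  rw [h3]
  linarith

/-- The pair condition used by the whole proof: `r` is the difference of the heights. -/
theorem step {y r d : ℝ} (h0r : 0 ≤ r) (h1 : r ≤ h0 → g r ≤ d)
    (h2 : h0 < r → g (r - h0) - 1 / 2 ≤ d) (hd : 0 ≤ d) : 1 ≤ d - (v (y + r) - v y) := by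
  rcases le_or_gt r h0 with h | h
  · have := v_add (y := y) h0r h
    have := h1 h
    linarith
  · rcases le_or_gt r (2 * h0) with h' | h'
    · have e1 := v_add (y := y) (r := r - h0) (by linarith) (by linarith)
      have e2 := v_add_int (y + (r - h0)) 1
      have e3 : y + (r - h0) + ((1 : ℤ) : ℝ) * h0 = y + r := by
        push_cast
        ring
      rw [e3] at e2
      push_cast at e2
      have := h2 h
      linarith
    · have e2 := v_add_int y 2
      have e1 := v_anti (y := y + ((2 : ℤ) : ℝ) * h0) (z := y + r) (by push_cast; linarith)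
      push_cast at e1 e2
      linarith

end Pool.Agent.StripSquare
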