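import Pool.Agent.StripSquare.Arc

/-! # Counting: disjoint unit squares on diagonal lines -/

namespace Pool.Agent.StripSquare

open MeasureTheory Pool.Agent.StripNear

/-- No two points of `X` form a steep pair: if the difference `r` of the heights exceeds `h0`, the
horizontal distance is at least `√(1 - (r - h0)²) - 1 / 2`. -/
def NoSteep (X : Finset Pt) : Prop :=
  ∀ p ∈ X, ∀ q ∈ X, h0 < |p.2 - q.2| → g (|p.2 - q.2| - h0) - 1 / 2 ≤ |p.1 - q.1|

/-- First coordinate in the plane of squares. -/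
noncomputable def RC (p : Pt) : ℝ := p.1 - v p.2

/-- Second coordinate in the plane of squares. -/
noncomputable def RA (H : ℝ) (p : Pt) : ℝ := p.1 - v (H - p.2)

theorem unit_dist {X : Finset Pt} (hX : UnitSep X) {p q : Pt} (hp : p ∈ X) (hq : q ∈ X)
    (hne : p ≠ q) : g |p.2 - q.2| ≤ |p.1 - q.1| := by
  have h := hX p hp q hq hne
  unfold g
  rw [Real.sqrt_le_left (abs_nonneg _), sq_abs, sq_abs]
  linarith

theorem squares_aux {X : Finset Pt} {H : ℝ} (hX : UnitSep X) (hS : NoSteep X) {p q : Pt}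
    (hp : p ∈ X) (hq : q ∈ X) (hne : p ≠ q) (hx : p.1 ≤ q.1) :
    1 ≤ RC q - RC p ∨ 1 ≤ RA H q - RA H p := by
  have h1 := unit_dist hX hp hq hne
  have h2 := hS p hp q hq
  have e1 : |p.1 - q.1| = q.1 - p.1 := by
    rw [abs_sub_comm, abs_of_nonneg (by linarith)]
  rw [e1] at h1 h2
  rcases le_total p.2 q.2 with h | h
  · left
    have e2 : |p.2 - q.2| = q.2 - p.2 := by
      rw [abs_sub_comm, abs_of_nonneg (by linarith)]
    rw [e2] at h1 h2
    have := step (y := p.2) (r := q.2 - p.2) (d := q.1 - p.1) (by linarith) (fun _ => h1) h2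
      (by linarith)
    rw [show p.2 + (q.2 - p.2) = q.2 by ring] at this
    unfold RC
    linarith
  · right
    have e2 : |p.2 - q.2| = p.2 - q.2 := abs_of_nonneg (by linarith)
    rw [e2] at h1 h2
    have := step (y := H - p.2) (r := p.2 - q.2) (d := q.1 - p.1) (by linarith) (fun _ => h1) h2
      (by linarith)
    rw [show H - p.2 + (p.2 - q.2) = H - q.2 by ring] at this
    unfold RA
    linarith

theorem squares {X : Finset Pt} {H : ℝ} (hX : UnitSep X) (hS : NoSteep X) {p q : Pt}
    (hp : p ∈ X) (hq : q ∈ X) (hne : p ≠ q) :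
    1 ≤ |RC p - RC q| ∨ 1 ≤ |RA H p - RA H q| := by
  rcases le_total p.1 q.1 with h | h
  · rcases squares_aux (H := H) hX hS hp hq hne h with h | h
    · left
      rw [abs_sub_comm]
      exact h.trans (le_abs_self _)
    · right
      rw [abs_sub_comm]
      exact h.trans (le_abs_self _)
  · rcases squares_aux (H := H) hX hS hq hp hne.symm h with h | h
    · exact Or.inl (h.trans (le_abs_self _))
    · exact Or.inr (h.trans (le_abs_self _))

/-- The interval cut out of the line `RC - RA = δ` by the open unit square about `p`. -/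
noncomputable def lo (H δ : ℝ) (p : Pt) : ℝ := max (RC p) (RA H p + δ) - 1 / 2

/-- The other end. -/
noncomputable def hi (H δ : ℝ) (p : Pt) : ℝ := min (RC p) (RA H p + δ) + 1 / 2

theorem hi_sub_lo (H δ : ℝ) (p : Pt) : hi H δ p - lo H δ p = 1 - |RC p - RA H p - δ| := by
  unfold hi lo
  rcases le_total (RC p) (RA H p + δ) with h | h
  · rw [max_eq_right h, min_eq_left h, abs_of_nonpos (by linarith)]
    ring
  · rw [max_eq_left h, min_eq_right h, abs_of_nonneg (by linarith)]
    ring

theorem disj {X : Finset Pt} {H : ℝ} (hX : UnitSep X) (hS : NoSteep X) (δ : ℝ) {p q : Pt}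
    (hp : p ∈ X) (hq : q ∈ X) (hne : p ≠ q) :
    Disjoint (Set.Ioo (lo H δ p) (hi H δ p)) (Set.Ioo (lo H δ q) (hi H δ q)) := by
  rw [Set.disjoint_left]
  rintro t ⟨a1, a2⟩ ⟨b1, b2⟩
  unfold lo at a1 b1
  unfold hi at a2 b2
  have a3 := le_max_left (RC p) (RA H p + δ)
  have a4 := le_max_right (RC p) (RA H p + δ)
  have a5 := min_le_left (RC p) (RA H p + δ)
  have a6 := min_le_right (RC p) (RA H p + δ)
  have b3 := le_max_left (RC q) (RA H q + δ)
  have b4 := le_max_right (RC q) (RA H q + δ)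
  have b5 := min_le_left (RC q) (RA H q + δ)
  have b6 := min_le_right (RC q) (RA H q + δ)
  rcases squares (H := H) hX hS hp hq hne with h | h
  · rcases abs_cases (RC p - RC q) with h' | h' <;> linarith [h'.1]
  · rcases abs_cases (RA H p - RA H q) with h' | h' <;> linarith [h'.1]

/-- Disjoint open intervals inside `(α, β)`. -/
theorem sum_intervals {ι : Type*} (s : Finset ι) (a b : ι → ℝ) {α β : ℝ} (hαβ : α ≤ β)
    (ha : ∀ i ∈ s, α ≤ a i) (hb : ∀ i ∈ s, b i ≤ β)
    (hd : ∀ i ∈ s, ∀ j ∈ s, i ≠ j → Disjoint (Set.Ioo (a i) (b i)) (Set.Ioo (a j) (b j))) :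
    ∑ i ∈ s, max (b i - a i) 0 ≤ β - α := by
  have h1 : volume (⋃ i ∈ s, Set.Ioo (a i) (b i)) = ∑ i ∈ s, volume (Set.Ioo (a i) (b i)) :=
    measure_biUnion_finset (fun i hi j hj hij => hd i hi j hj hij) fun i _ => measurableSet_Ioo
  have h2 : volume (⋃ i ∈ s, Set.Ioo (a i) (b i)) ≤ volume (Set.Ioo α β) := by
    apply measure_mono
    intro x hx
    simp only [Set.mem_iUnion] at hx
    obtain ⟨i, hi, hx1, hx2⟩ := hx
    exact ⟨(ha i hi).trans_lt hx1, hx2.trans_le (hb i hi)⟩
  rw [h1, Real.volume_Ioo] at h2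
  have h3 : ∑ i ∈ s, volume (Set.Ioo (a i) (b i)) = ENNReal.ofReal (∑ i ∈ s, max (b i - a i) 0) := by
    rw [ENNReal.ofReal_sum_of_nonneg fun i _ => le_max_right _ _]
    refine Finset.sum_congr rfl fun i _ => ?_
    rw [Real.volume_Ioo, ENNReal.ofReal_max, ENNReal.ofReal_zero, max_eq_left (by simp)]
  rw [h3] at h2
  exact (ENNReal.ofReal_le_ofReal_iff (by linarith)).1 h2

theorem line_bound {X : Finset Pt} {H L : ℝ} (hX : UnitSep X) (hS : NoSteep X) (δ : ℝ)
    (hH : InStrip H X) (hL : ∀ p ∈ X, 0 ≤ p.1 ∧ p.1 ≤ L) (hL0 : 0 ≤ L) (hH0 : 0 ≤ H) :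
    ∑ p ∈ X, max (1 - |RC p - RA H p - δ|) 0 ≤ L + (1 - v H) := by
  have hv : v H ≤ 0 := by
    have := v_anti hH0
    rwa [v_zero] at this
  have := sum_intervals X (lo H δ) (hi H δ) (α := -(1 / 2)) (β := L - v H + 1 / 2) (by linarith)
    (fun p hp => by
      have h1 := hL p hp
      have h2 := v_anti (hH p hp).1
      rw [v_zero] at h2
      have h3 := le_max_left (RC p) (RA H p + δ)
      have h4 : RC p = p.1 - v p.2 := rfl
      unfold lo
      linarith)
    (fun p hp => by
      have h1 := hL p hp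
      have h2 := v_anti (hH p hp).2
      have h3 := min_le_left (RC p) (RA H p + δ)
      have h4 : RC p = p.1 - v p.2 := rfl
      unfold hi
      linarith)
    (fun p hp q hq hne => disj hX hS δ hp hq hne)
  calc ∑ p ∈ X, max (1 - |RC p - RA H p - δ|) 0 = ∑ p ∈ X, max (hi H δ p - lo H δ p) 0 :=
        Finset.sum_congr rfl fun p _ => by rw [hi_sub_lo]
    _ ≤ L - v H + 1 / 2 - -(1 / 2) := this
    _ = L + (1 - v H) := by ring

/-- The total weight of a point on the lines. -/
theorem weight {n : ℕ} {V t w : ℝ} (ht : 0 ≤ t) (hV : (n + 2) * t + n = 2 * V) (h1 : -V ≤ w)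
    (h2 : w ≤ V) :
    1 - t ≤ ∑ i ∈ Finset.range (n + 1), max (1 - |w - (-V + t + i * (1 + t))|) 0 := by
  have hnn : ∀ i ∈ Finset.range (n + 1), 0 ≤ max (1 - |w - (-V + t + (i : ℝ) * (1 + t))|) 0 :=
    fun i _ => le_max_right _ _
  rcases le_or_gt w (-V + t) with h | h
  · refine le_trans ?_ (Finset.single_le_sum hnn (Finset.mem_range.2 (Nat.succ_pos n)))
    refine le_trans ?_ (le_max_left _ _)
    push_cast
    rw [abs_of_nonpos (by linarith)]
    linarith
  · rcases le_or_gt (V - t) w with h' | h'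
    · refine le_trans ?_ (Finset.single_le_sum hnn (Finset.mem_range.2 (Nat.lt_succ_self n)))
      refine le_trans ?_ (le_max_left _ _)
      rw [abs_of_nonneg (by nlinarith)]
      nlinarith
    · set x : ℝ := (w - (-V + t)) / (1 + t) with hx
      have ht1 : 0 < 1 + t := by linarith
      have hx0 : 0 ≤ x := div_nonneg (by linarith) ht1.le
      have hxn : x < n := by
        rw [hx, div_lt_iff₀ ht1]
        nlinarith
      set i : ℕ := ⌊x⌋₊ with hi
      have h3 : (i : ℝ) ≤ x := Nat.floor_le hx0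
      have h4 : x < (i : ℝ) + 1 := Nat.lt_floor_add_one x
      have h5 : i < n := by
        have : (i : ℝ) < n := h3.trans_lt hxn
        exact_mod_cast this
      have h6 : (i : ℝ) * (1 + t) ≤ w - (-V + t) := by
        rw [hx, le_div_iff₀ ht1] at h3
        exact h3
      have h7 : w - (-V + t) < ((i : ℝ) + 1) * (1 + t) := by
        rw [hx, div_lt_iff₀ ht1] at h4
        exact h4
      have hsub : ({i, i + 1} : Finset ℕ) ⊆ Finset.range (n + 1) := by
        intro j hj
        rw [Finset.mem_insert, Finset.mem_singleton] at hj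
        rw [Finset.mem_range]
        omega
      refine le_trans ?_ (Finset.sum_le_sum_of_subset_of_nonneg hsub fun j hj _ => hnn j hj)
      rw [Finset.sum_pair (by omega)]
      have e1 := le_max_left (1 - |w - (-V + t + (i : ℝ) * (1 + t))|) 0
      have e2 := le_max_left (1 - |w - (-V + t + ((i + 1 : ℕ) : ℝ) * (1 + t))|) 0
      have e3 : |w - (-V + t + (i : ℝ) * (1 + t))| = w - (-V + t + (i : ℝ) * (1 + t)) :=
        abs_of_nonneg (by linarith)
      have e4 : |w - (-V + t + ((i + 1 : ℕ) : ℝ) * (1 + t))| =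
          -(w - (-V + t + ((i + 1 : ℕ) : ℝ) * (1 + t))) := by
        apply abs_of_nonpos
        push_cast
        linarith
      rw [e3] at e1 ⊢
      rw [e4] at e2 ⊢
      push_cast at e2 ⊢
      linarith

/-- The count: Molnar's bound for sets without steep pairs. -/
theorem count {X : Finset Pt} {n : ℕ} {s L : ℝ} (hs0 : 0 ≤ s) (hs1 : s < h0) (hX : UnitSep X)
    (hS : NoSteep X) (hH : InStrip (n * h0 + s) X) (hL : ∀ p ∈ X, 0 ≤ p.1 ∧ p.1 ≤ L)
    (hL0 : 0 ≤ L) :
    (X.card : ℝ) ≤ (n + 1) * (n + 2) / (n + 2 * g s) * (L + (n / 2 + 2 - g s)) := by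
  have hh := h0_lt
  have hh0 := h0_pos
  set H : ℝ := n * h0 + s with hHdef
  have hn0 : (0 : ℝ) ≤ n := Nat.cast_nonneg n
  have hH0 : 0 ≤ H := by positivity
  have hvH : v H = g s - 1 - n / 2 := by
    have := v_eq (y := H) (s := s) (k := (n : ℤ)) (by rw [hHdef]; push_cast; ring) hs0 hs1
    rw [this]
    push_cast
    ring
  have hg1 : g s ≤ 1 := g_le_one s
  have hg2 : 1 / 2 < g s := by
    unfold g
    rw [Real.lt_sqrt (by norm_num)]
    nlinarith [h0_sq]
  set V : ℝ := -v H with hV
  set t : ℝ := (2 - 2 * g s) / (n + 2) with ht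
  have ht0 : 0 ≤ t := div_nonneg (by linarith) (by linarith)
  have htV : ((n : ℝ) + 2) * t + n = 2 * V := by
    rw [ht, hV, hvH]
    field_simp
    ring
  have hw : ∀ p ∈ X, -V ≤ RC p - RA H p ∧ RC p - RA H p ≤ V := by
    intro p hp
    have h1 := hH p hp
    have a1 := v_anti h1.1
    have a2 := v_anti h1.2
    have a3 := v_anti (y := 0) (z := H - p.2) (by linarith)
    have a4 := v_anti (y := H - p.2) (z := H) (by linarith)
    rw [v_zero] at a1 a3
    have e : RC p - RA H p = v (H - p.2) - v p.2 := by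
      unfold RC RA
      ring
    rw [e]
    constructor <;> linarith
  have key : (X.card : ℝ) * (1 - t) ≤ (n + 1) * (L + (1 - v H)) := by
    calc (X.card : ℝ) * (1 - t) = ∑ _p ∈ X, (1 - t) := by
          rw [Finset.sum_const, nsmul_eq_mul]
      _ ≤ ∑ p ∈ X, ∑ i ∈ Finset.range (n + 1),
          max (1 - |RC p - RA H p - (-V + t + i * (1 + t))|) 0 :=
          Finset.sum_le_sum fun p hp => weight ht0 htV (hw p hp).1 (hw p hp).2
      _ = ∑ i ∈ Finset.range (n + 1), ∑ p ∈ X,
          max (1 - |RC p - RA H p - (-V + t + i * (1 + t))|) 0 := Finset.sum_comm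
      _ ≤ ∑ _i ∈ Finset.range (n + 1), (L + (1 - v H)) :=
          Finset.sum_le_sum fun i _ => line_bound hX hS _ hH hL hL0 hH0
      _ = (n + 1) * (L + (1 - v H)) := by
          rw [Finset.sum_const, Finset.card_range, nsmul_eq_mul]
          push_cast
          ring
  have e1 : 1 - t = (n + 2 * g s) / (n + 2) := by
    rw [ht]
    field_simp
    ring
  have hpos : 0 < (n : ℝ) + 2 * g s := by linarith
  rw [e1, hvH] at key
  rw [div_mul_eq_mul_div, le_div_iff₀ hpos]
  have h2 : (0 : ℝ) < n + 2 := by linarith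
  have key2 := mul_le_mul_of_nonneg_right key h2.le
  have e2 : (X.card : ℝ) * ((n + 2 * g s) / (n + 2)) * (n + 2) = X.card * (n + 2 * g s) := by
    field_simp
  rw [e2] at key2
  nlinarith

end Pool.Agent.StripSquare
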