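import Pool.Agent.StripSquare.Density

/-! # Molnar's bound for packings without steep pairs -/

namespace Pool.Agent.StripSquare

open Pool.Agent.StripNear Pool.Agent.StripTwo

theorem no_steep_bound {w : ℝ} (hw : 2 ≤ w) {C : Set E2} (hC : IsStripPacking w C)
    (hN : NoSteepPacking C) {O : E2} {d : ℝ} (hd : HasDensity w C O d) : d ≤ molnar w := by
  have h3 : 0 < √3 := Real.sqrt_pos.2 (by norm_num)
  set n := rowNumber w with hn
  have hn0 : (0 : ℝ) ≤ n := Nat.cast_nonneg n
  have hq : 0 ≤ (w - 2) / √3 := div_nonneg (by linarith) h3.le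
  have hlo : (n : ℝ) * √3 ≤ w - 2 := by
    have h : (n : ℝ) ≤ (w - 2) / √3 := Nat.floor_le hq
    rwa [le_div_iff₀ h3] at h
  have hhi : w - 2 < ((n : ℝ) + 1) * √3 := by
    have h : (w - 2) / √3 < (n : ℝ) + 1 := Nat.lt_floor_add_one _
    rwa [div_lt_iff₀ h3] at h
  set s : ℝ := (w - 2 - √3 * n) / 2 with hs
  have hs0 : 0 ≤ s := by
    rw [hs]
    linarith
  have hs1 : s < h0 := by
    rw [hs]
    unfold h0
    linarith
  have hH : (w - 2) / 2 = n * h0 + s := by
    rw [hs]
    unfold h0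
    ring
  have h1 := density_le (w := w) (m := ((n : ℝ) + 1) * (n + 2) / (n + 2 * g s))
    (C0 := ((n : ℝ) + 1) * (n + 2) / (n + 2 * g s) * (n / 2 + 2 - g s)) hw
    (fun L hL0 X hX hS hL hXH => by
      rw [hH] at hXH
      have := count hs0 hs1 hX hS hXH hL hL0
      linarith) hC hN hd
  refine h1.trans (le_of_eq ?_)
  unfold molnar
  rw [← hn]
  have e : √(4 - (w - 2 - √3 * n) ^ 2) = 2 * g s := by
    unfold g
    rw [show 4 - (w - 2 - √3 * n) ^ 2 = 2 ^ 2 * (1 - s ^ 2) by rw [hs]; ring,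
      Real.sqrt_mul (by norm_num), Real.sqrt_sq (by norm_num)]
  rw [e]
  have hg : 0 ≤ g s := g_nonneg s
  have h4 : 0 < (n : ℝ) + 2 * g s := by
    have : 1 / 2 < g s := by
      unfold g
      rw [Real.lt_sqrt (by norm_num)]
      nlinarith [h0_sq]
    linarith
  field_simp

end Pool.Agent.StripSquare
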