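import Pool.Agent.StripSquare.Count

/-! # Robust form: packings with few steep pairs -/

namespace Pool.Agent.StripSquare

open Pool.Agent.StripNear

/-- The lower points of the steep pairs of `X`. -/
noncomputable def steepLow (X : Finset Pt) : Finset Pt :=
  open Classical in X.filter fun p => ∃ q ∈ X, h0 < q.2 - p.2 ∧
    |p.1 - q.1| < g (q.2 - p.2 - h0) - 1 / 2

/-- The bound for an arbitrary packing, with the number of lower points of steep pairs as error
term. -/
theorem count_robust {X : Finset Pt} {n : ℕ} {s L : ℝ} (hs0 : 0 ≤ s) (hs1 : s < h0)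
    (hX : UnitSep X) (hH : InStrip (n * h0 + s) X) (hL : ∀ p ∈ X, 0 ≤ p.1 ∧ p.1 ≤ L)
    (hL0 : 0 ≤ L) :
    (X.card : ℝ) ≤ (n + 1) * (n + 2) / (n + 2 * g s) * (L + (n / 2 + 2 - g s)) +
      (steepLow X).card := by
  classical
  have hsub : steepLow X ⊆ X := by
    unfold steepLow
    exact Finset.filter_subset _ _
  have h1 : NoSteep (X \ steepLow X) := by
    intro p hp q hq h
    rw [Finset.mem_sdiff] at hp hq
    by_contra hcon
    push Not at hcon
    rcases le_total p.2 q.2 with h' | h'
    · apply hp.2
      have e : |p.2 - q.2| = q.2 - p.2 := by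
        rw [abs_sub_comm, abs_of_nonneg (by linarith)]
      rw [e] at h hcon
      unfold steepLow
      simp only [Finset.mem_filter]
      exact ⟨hp.1, q, hq.1, h, hcon⟩
    · apply hq.2
      have e : |p.2 - q.2| = p.2 - q.2 := abs_of_nonneg (by linarith)
      rw [e, abs_sub_comm] at hcon
      rw [e] at h
      unfold steepLow
      simp only [Finset.mem_filter]
      exact ⟨hq.1, p, hp.1, h, hcon⟩
  have h2 := count (X := X \ steepLow X) (n := n) (L := L) hs0 hs1
    (fun p hp q hq => hX p (Finset.sdiff_subset hp) q (Finset.sdiff_subset hq)) h1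
    (fun p hp => hH p (Finset.sdiff_subset hp)) (fun p hp => hL p (Finset.sdiff_subset hp)) hL0
  have h3 : ((X \ steepLow X).card : ℝ) = X.card - (steepLow X).card := by
    rw [Finset.card_sdiff_of_subset hsub, Nat.cast_sub (Finset.card_le_card hsub)]
  linarith

end Pool.Agent.StripSquare
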